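import Pool.Agent.H474.MS.Stm

/-!
Project MS (helper474), task N2: bounded mean square of increments implies bounded mean square.
-/

open MeasureTheory Filter Topology Set

namespace Pool.Agent.H297.MS.N2

theorem ii {f : ℝ → ℝ} (hf : Measurable f) (hb : ∀ V : ℝ, ∃ B : ℝ, ∀ v ∈ Icc 0 V, |f v| ≤ B)
    {a b : ℝ} (ha : 0 ≤ a) (hab : a ≤ b) : IntervalIntegrable f volume a b := by
  rw [intervalIntegrable_iff_integrableOn_Ioc_of_le hab]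
  obtain ⟨B, hB⟩ := hb b
  refine Measure.integrableOn_of_bounded (M := B) measure_Ioc_lt_top.ne hf.aestronglyMeasurable ?_
  exact (ae_restrict_iff' measurableSet_Ioc).mpr
    (Eventually.of_forall fun v hv => hB v ⟨ha.trans hv.1.le, hv.2⟩)

theorem sqb {f : ℝ → ℝ} (hb : ∀ V : ℝ, ∃ B : ℝ, ∀ v ∈ Icc 0 V, |f v| ≤ B) :
    ∀ V : ℝ, ∃ B : ℝ, ∀ v ∈ Icc 0 V, |f v ^ 2| ≤ B := by
  intro V
  obtain ⟨B, hB⟩ := hb V
  refine ⟨B ^ 2, fun v hv => ?_⟩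
  rw [abs_pow]
  exact pow_le_pow_left₀ (abs_nonneg _) (hB v hv) 2

theorem shb {f : ℝ → ℝ} (hb : ∀ V : ℝ, ∃ B : ℝ, ∀ v ∈ Icc 0 V, |f v| ≤ B) {h : ℝ} (hh : 0 ≤ h) :
    ∀ V : ℝ, ∃ B : ℝ, ∀ v ∈ Icc 0 V, |f (v + h)| ≤ B := by
  intro V
  obtain ⟨B, hB⟩ := hb (V + h)
  exact ⟨B, fun v hv => hB _ ⟨by linarith [hv.1], by linarith [hv.2]⟩⟩

theorem incb {f : ℝ → ℝ} (hb : ∀ V : ℝ, ∃ B : ℝ, ∀ v ∈ Icc 0 V, |f v| ≤ B) {h a : ℝ} (hh : 0 ≤ h) :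
    ∀ V : ℝ, ∃ B : ℝ, ∀ v ∈ Icc 0 V, |a * f (v + h) - f v| ≤ B := by
  intro V
  obtain ⟨B, hB⟩ := hb V
  obtain ⟨B', hB'⟩ := shb hb hh V
  refine ⟨|a| * B' + B, fun v hv => ?_⟩
  refine (abs_sub _ _).trans ?_
  rw [abs_mul]
  exact add_le_add (mul_le_mul_of_nonneg_left (hB' v hv) (abs_nonneg _)) (hB v hv)

theorem main {f : ℝ → ℝ} (hf : Measurable f) (hb : ∀ V : ℝ, ∃ B : ℝ, ∀ v ∈ Icc 0 V, |f v| ≤ B)
    {h a : ℝ} (hh : 0 < h) (ha : 1 < a) {V : ℝ} (hV : 0 ≤ V) :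
    (1 - a⁻¹) * (∫ v in (0 : ℝ)..V, f v ^ 2) ≤ (∫ v in (0 : ℝ)..h, f v ^ 2) +
      (a * (a - 1))⁻¹ * ∫ v in (0 : ℝ)..V, (a * f (v + h) - f v) ^ 2 := by
  have ha0 : 0 < a := by linarith
  have ha1 : 0 < a - 1 := by linarith
  have hsm : Measurable fun v => f v ^ 2 := hf.pow_const 2
  have hshm : Measurable fun v => f (v + h) := hf.comp (measurable_id.add_const h)
  have i1 : ∀ {x y : ℝ}, 0 ≤ x → x ≤ y → IntervalIntegrable (fun v => f v ^ 2) volume x y :=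
    fun hx hxy => ii hsm (sqb hb) hx hxy
  have i2 : IntervalIntegrable (fun v => f (v + h) ^ 2) volume 0 V :=
    ii (hshm.pow_const 2) (sqb (shb hb hh.le)) le_rfl hV
  have i3 : IntervalIntegrable (fun v => (a * f (v + h) - f v) ^ 2) volume 0 V :=
    ii (((hshm.const_mul a).sub hf).pow_const 2) (sqb (incb hb hh.le)) le_rfl hV
  have e1 : ∫ v in (0 : ℝ)..V, f (v + h) ^ 2 = ∫ v in (0 + h)..(V + h), f v ^ 2 :=
    intervalIntegral.integral_comp_add_right (fun v => f v ^ 2) h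
  rw [zero_add] at e1
  have e2 : (∫ v in (0 : ℝ)..h, f v ^ 2) + ∫ v in h..(V + h), f v ^ 2 =
      ∫ v in (0 : ℝ)..(V + h), f v ^ 2 :=
    intervalIntegral.integral_add_adjacent_intervals (i1 le_rfl hh.le) (i1 hh.le (by linarith))
  have e3 : (∫ v in (0 : ℝ)..V, f v ^ 2) + ∫ v in V..(V + h), f v ^ 2 =
      ∫ v in (0 : ℝ)..(V + h), f v ^ 2 :=
    intervalIntegral.integral_add_adjacent_intervals (i1 le_rfl hV) (i1 hV (by linarith))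
  have e4 : 0 ≤ ∫ v in V..(V + h), f v ^ 2 :=
    intervalIntegral.integral_nonneg (by linarith) fun v _ => sq_nonneg _
  have e5 : ∫ v in (0 : ℝ)..V, f (v + h) ^ 2 ≤
      ∫ v in (0 : ℝ)..V, (a⁻¹ * f v ^ 2 + (a * (a - 1))⁻¹ * (a * f (v + h) - f v) ^ 2) := by
    refine intervalIntegral.integral_mono_on hV i2
      (((i1 le_rfl hV).const_mul _).add (i3.const_mul _)) fun v _ => ?_
    have h1 : a⁻¹ * f v ^ 2 + (a * (a - 1))⁻¹ * (a * f (v + h) - f v) ^ 2 - f (v + h) ^ 2 =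
        (a * (a - 1))⁻¹ * (f v * a - a * f (v + h)) ^ 2 * a⁻¹ := by
      field_simp
      ring
    have h2 : 0 ≤ (a * (a - 1))⁻¹ * (f v * a - a * f (v + h)) ^ 2 * a⁻¹ := by positivity
    linarith
  rw [intervalIntegral.integral_add ((i1 le_rfl hV).const_mul _) (i3.const_mul _),
    intervalIntegral.integral_const_mul, intervalIntegral.integral_const_mul] at e5
  linarith

theorem t_N2 : Pool.Agent.H474.MS.S_N2 := by
  intro f hf hb h C hh hfr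
  have ha : 1 < Real.exp (h / 2) := by
    rw [Real.one_lt_exp_iff]
    linarith
  obtain ⟨a, haa⟩ : ∃ a, a = Real.exp (h / 2) := ⟨_, rfl⟩
  rw [← haa] at hfr ha
  have ha0 : 0 < a := by linarith
  have ha1 : 0 < 1 - a⁻¹ := by
    have := inv_lt_one_of_one_lt₀ ha
    linarith
  have hK : 0 < (a * (a - 1))⁻¹ := inv_pos.mpr (mul_pos ha0 (by linarith))
  have hF : 0 ≤ ∫ v in (0 : ℝ)..h, f v ^ 2 :=
    intervalIntegral.integral_nonneg hh.le fun v _ => sq_nonneg _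
  refine ⟨((∫ v in (0 : ℝ)..h, f v ^ 2) + (a * (a - 1))⁻¹ * C) / (1 - a⁻¹),
    (hfr.and_eventually (eventually_ge_atTop 1)).mono fun V hV => ?_⟩
  obtain ⟨h1, h2⟩ := hV
  have hV0 : 0 < V := by linarith
  unfold Pool.Agent.H474.MS.mean at h1 ⊢
  rw [div_le_iff₀ hV0] at h1 ⊢
  have h3 := main hf hb hh ha hV0.le
  rw [div_mul_eq_mul_div, le_div_iff₀ ha1]
  have h4 := mul_le_mul_of_nonneg_left h1 hK.le
  have h5 : (∫ v in (0 : ℝ)..h, f v ^ 2) * 1 ≤ (∫ v in (0 : ℝ)..h, f v ^ 2) * V :=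
    mul_le_mul_of_nonneg_left h2 hF
  nlinarith

end Pool.Agent.H297.MS.N2
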